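import Mathlib
import Pool.Agent.H759R2.Kad.Props3
import Pool.Agent.H539R2.Kad.Chars

open scoped ComplexOrder InnerProductSpace ComplexConjugate
open Finset

noncomputable section

namespace H759R2.Kad

universe u v

namespace A10

variable {B : Type u} [CStarAlgebra B] {ι : Type} [Fintype ι] [DecidableEq ι]

omit [Fintype ι] [DecidableEq ι] in
theorem addChar_prod {R : ℕ} [NeZero R] {α : Type} (s : Finset α) (f : α → ZMod R) :
    ∏ t ∈ s, (ZMod.stdAddChar (f t) : ℂ) = ZMod.stdAddChar (∑ t ∈ s, f t) := by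
  classical
  induction s using Finset.induction_on with
  | empty => simp
  | insert a s ha ih => rw [Finset.prod_insert ha, Finset.sum_insert ha, ih,
      AddChar.map_add_eq_mul]

theorem chi_prod (R : ℕ) [NeZero R] {k : ℕ} (σ : Fin (k + 1) → ι) (ω : ι → ZMod R) :
    ∏ t, chi ω (σ t) = Chi (freq R σ) ω := by
  unfold Chi chi freq
  rw [addChar_prod]
  congr 1
  rw [← Finset.sum_fiberwise (s := (univ : Finset (Fin (k + 1)))) (g := σ)]
  refine Finset.sum_congr rfl fun c _ => ?_
  rw [Finset.sum_congr rfl (g := fun _ => ω c)]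
  · rw [Finset.sum_const, nsmul_eq_mul]
  · intro t ht
    rw [(Finset.mem_filter.1 ht).2]

omit [Fintype ι] [DecidableEq ι] in
theorem chi_norm {R : ℕ} [NeZero R] (ω : ι → ZMod R) (c : ι) :
    conj (chi ω c) * chi ω c = 1 := by
  unfold chi
  rw [← AddChar.map_neg_eq_conj, ← AddChar.map_add_eq_mul]
  simp

omit [Fintype ι] in
theorem gm_apply (g : ι → unitary B) (i j : ι) :
    gm g i j = if i = j then (g i : B) else 0 := by
  unfold gm
  change Matrix.diagonal _ i j = _
  rw [Matrix.diagonal_apply]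

theorem gm_unitary (g : ι → unitary B) : gm g ∈ unitary (CStarMatrix ι ι B) := by
  rw [Unitary.mem_iff]
  constructor
  · ext i j
    rw [CStarMatrix.mul_apply, CStarMatrix.one_apply, Finset.sum_eq_single i]
    · rw [CStarMatrix.star_apply, gm_apply, gm_apply, if_pos rfl]
      by_cases h : i = j
      · rw [if_pos h, if_pos h]
        exact Unitary.coe_star_mul_self (g i)
      · rw [if_neg h, if_neg h, mul_zero]
    · intro b _ hb
      rw [CStarMatrix.star_apply, gm_apply, if_neg hb, star_zero, zero_mul]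
    · simp
  · ext i j
    rw [CStarMatrix.mul_apply, CStarMatrix.one_apply, Finset.sum_eq_single i]
    · rw [CStarMatrix.star_apply, gm_apply, gm_apply, if_pos rfl]
      by_cases h : i = j
      · subst h
        rw [if_pos rfl, if_pos rfl]
        exact Unitary.coe_mul_star_self (g i)
      · rw [if_neg (Ne.symm h), if_neg h, star_zero, mul_zero]
    · intro b _ hb
      rw [gm_apply, if_neg (Ne.symm hb), zero_mul]
    · simp

theorem ph_unitary' {R : ℕ} [NeZero R] (ω : ι → ZMod R) :
    ph B ω ∈ unitary (CStarMatrix ι ι B) := by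
  have h : ∀ c : ι, (chi ω c • (1 : B)) ∈ unitary B := by
    intro c
    rw [Unitary.mem_iff]
    constructor
    · rw [star_smul, star_one, smul_mul_smul_comm, mul_one]
      rw [show star (chi ω c) = conj (chi ω c) from rfl, chi_norm, one_smul]
    · rw [star_smul, star_one, smul_mul_smul_comm, mul_one]
      rw [show star (chi ω c) = conj (chi ω c) from rfl, mul_comm, chi_norm, one_smul]
  exact gm_unitary (B := B) fun c => ⟨chi ω c • (1 : B), h c⟩

theorem Tw_unitary {R : ℕ} [NeZero R] (x : CStarMatrix ι ι B) (g : ι → unitary B)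
    (ω : ι → ZMod R) (k : ℕ) (hx : x ∈ unitary (CStarMatrix ι ι B)) :
    Tw x g ω k ∈ unitary (CStarMatrix ι ι B) := by
  unfold Tw
  have h1 := mul_mem (gm_unitary g) (ph_unitary' (B := B) ω)
  exact mul_mem (pow_mem (mul_mem h1 hx) k) h1

end A10

theorem prove3_fourier (h : K_expand.{u}) : K_fourier.{u} := by
  intro B _ _ _ ι _ _ R _ x g k
  have key : ∀ ω : ι → ZMod R, Tw x g ω k = ∑ f, Chi f ω • Yf x g R k f := by
    intro ω
    ext i j
    rw [h]
    have h1 : (∑ f, Chi f ω • Yf x g R k f) i j = ∑ f, Chi f ω • (Yf x g R k f i j) := by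
      have : ∀ (s : Finset (ι → ZMod R)), (∑ f ∈ s, Chi f ω • Yf x g R k f) i j =
          ∑ f ∈ s, Chi f ω • (Yf x g R k f i j) := by
        intro s
        induction s using Finset.cons_induction with
        | empty => simp
        | cons a s ha ih =>
          rw [Finset.sum_cons, Finset.sum_cons, CStarMatrix.add_apply, ih,
            CStarMatrix.smul_apply]
      exact this _
    have h2 : ∀ f, Yf x g R k f i j = ∑ σ : Fin (k + 1) → ι,
        if σ 0 = i ∧ σ (Fin.last k) = j ∧ freq R σ = f then sword x g σ else 0 := fun f => rfl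
    rw [h1]
    simp only [h2, Finset.smul_sum, smul_ite, smul_zero]
    rw [Finset.sum_comm]
    refine Finset.sum_congr rfl fun σ _ => ?_
    rw [Finset.sum_eq_single (freq R σ)]
    · rw [A10.chi_prod]
      by_cases hσ : σ 0 = i ∧ σ (Fin.last k) = j
      · rw [if_pos hσ, if_pos ⟨hσ.1, hσ.2, rfl⟩]
      · rw [if_neg hσ, if_neg fun h' => hσ ⟨h'.1, h'.2.1⟩]
    · intro f _ hf
      rw [if_neg fun h' => hf h'.2.2.symm]
    · simp
  refine ⟨key, fun hx => ?_⟩
  have h2 : ∑ ω : ι → ZMod R, star (Tw x g ω k) * Tw x g ω k =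
      (Fintype.card (ι → ZMod R) : ℂ) • (1 : CStarMatrix ι ι B) := by
    rw [Finset.sum_congr rfl fun ω _ =>
      (Unitary.mem_iff.1 (A10.Tw_unitary x g ω k hx)).1]
    rw [Finset.sum_const, Finset.card_univ, Nat.cast_smul_eq_nsmul]
  have h3 : ∑ ω : ι → ZMod R, star (Tw x g ω k) * Tw x g ω k =
      (Fintype.card (ι → ZMod R) : ℂ) • ∑ f : ι → ZMod R, star (Yf x g R k f) * Yf x g R k f := by
    have h4 : ∀ ω : ι → ZMod R, star (Tw x g ω k) * Tw x g ω k =
        ∑ f, ∑ f', (conj (Chi f ω) * Chi f' ω) • (star (Yf x g R k f) * Yf x g R k f') := by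
      intro ω
      rw [key ω, star_sum, Finset.sum_mul_sum]
      refine Finset.sum_congr rfl fun f _ => Finset.sum_congr rfl fun f' _ => ?_
      rw [star_smul, smul_mul_smul_comm]
      rfl
    simp_rw [h4]
    rw [Finset.sum_comm]
    rw [Finset.smul_sum]
    refine Finset.sum_congr rfl fun f _ => ?_
    rw [Finset.sum_comm]
    rw [Finset.sum_eq_single f]
    · rw [← Finset.sum_smul, prove_orth, if_pos rfl]
    · intro f' _ hf'
      rw [← Finset.sum_smul, prove_orth, if_neg (Ne.symm hf'), zero_smul]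
    · simp
  rw [h2] at h3
  have h5 : (Fintype.card (ι → ZMod R) : ℂ) ≠ 0 := by
    exact Nat.cast_ne_zero.2 Fintype.card_ne_zero
  exact (smul_right_injective _ h5 h3).symm

end H759R2.Kad
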